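import Pool.Agent.H91.LK.B3

/-!
# LB: reduction of a number to a nondegenerate number by products over blocks
-/

set_option autoImplicit false
set_option linter.unusedSectionVars false

namespace H23.LB

open H25.Arith Polynomial H91.LK

/-- a universal exponent -/
theorem bl_exp {K : Type} [Field K] (O : Finset K) : ∃ m : ℕ, 0 < m ∧
    ∀ x ∈ O, ∀ y ∈ O, ∀ n : ℕ, 0 < n → x ^ n = y ^ n → x ^ m = y ^ m := by
  classical
  have h0 : ∀ t : K × K, ∃ n : ℕ, 0 < n ∧ ((∃ n' : ℕ, 0 < n' ∧ t.1 ^ n' = t.2 ^ n') →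
      t.1 ^ n = t.2 ^ n) := by
    intro t
    by_cases h : ∃ n' : ℕ, 0 < n' ∧ t.1 ^ n' = t.2 ^ n'
    · obtain ⟨n, h1, h2⟩ := h
      exact ⟨n, h1, fun _ => h2⟩
    · exact ⟨1, one_pos, fun h' => absurd h' h⟩
  choose e he1 he2 using h0
  refine ⟨∏ t ∈ O ×ˢ O, e t, Finset.prod_pos fun t _ => he1 t, ?_⟩
  intro x hx y hy n hn hxy
  obtain ⟨c, hc⟩ := Finset.dvd_prod_of_mem e (Finset.mk_mem_product hx hy)
  rw [hc, pow_mul, pow_mul]
  congr 1
  exact he2 (x, y) ⟨n, hn, hxy⟩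

open Classical in
theorem blocks {K : Type} [Field K] [NumberField K] [IsGalois ℚ K] (σ : K →+* ℂ) (α : K)
    (hα : IsIntegral ℤ α) (hS : 0 < ∑ x ∈ orb α, Real.posLog ‖σ x‖) :
    ∃ (k : ℕ) (G : K → K), 0 < k ∧ IsIntegral ℤ (G α) ∧
      (∀ (g : K ≃ₐ[ℚ] K), ∀ x ∈ orb α, g (G x) = G (g x)) ∧
      (∀ b ∈ orb (G α), ((orb α).filter (fun x => G x = b)).card = k) ∧
      (orb α).card = k * (orb (G α)).card ∧
      (∀ x ∈ orb α, ∀ y ∈ orb α, G x = G y → ‖σ x‖ = ‖σ y‖) ∧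
      ∑ x ∈ orb (G α), Real.posLog ‖σ x‖ = ∑ x ∈ orb α, Real.posLog ‖σ x‖ ∧
      (∀ n : ℕ, 0 < n → ∀ x ∈ orb (G α), ∀ y ∈ orb (G α), x ^ n = y ^ n → x = y) ∧
      (∀ p q : ℕ, 0 < p → 0 < q → p ≠ q → ∀ x ∈ orb (G α), ∀ y ∈ orb (G α), x ^ p ≠ y ^ q) := by
  obtain ⟨m, hm, hU⟩ := bl_exp (orb α)
  set G : K → K := fun x => ndP α m (x ^ m) with hG
  have hGg : ∀ (g : K ≃ₐ[ℚ] K) (x : K), g (G x) = G (g x) := by
    intro g x
    rw [hG]
    simp only
    rw [nd_ndP_map, map_pow]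
  -- all blocks have the same cardinality
  set k : ℕ := ((orb α).filter (fun y => y ^ m = α ^ m)).card with hk
  have hself : α ∈ orb α := nd_self_mem α
  have hkpos : 0 < k := Finset.card_pos.2 ⟨α, Finset.mem_filter.2 ⟨hself, rfl⟩⟩
  have hblock : ∀ x ∈ orb α, ((orb α).filter (fun y => y ^ m = x ^ m)).card = k := by
    intro x hx
    obtain ⟨g, rfl⟩ := Disc.mem_orb.1 hx
    rw [hk]
    symm
    refine Finset.card_nbij (fun y => g y) ?_ ?_ ?_
    · intro y hy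
      rw [Finset.mem_coe, Finset.mem_filter] at hy
      rw [Finset.mem_coe, Finset.mem_filter]
      exact ⟨Disc.map_mem_orb hy.1 g, by rw [← map_pow, hy.2, map_pow]⟩
    · intro y _ z _ h
      exact g.injective h
    · intro y hy
      rw [Finset.mem_coe, Finset.mem_filter] at hy
      refine ⟨g.symm y, ?_, by simp⟩
      rw [Finset.mem_coe, Finset.mem_filter]
      refine ⟨Disc.map_mem_orb hy.1 g.symm, ?_⟩
      rw [← map_pow, hy.2, ← map_pow]
      simp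
  have hGm : ∀ x ∈ orb α, G x ^ m = x ^ (m * k) := by
    intro x hx
    rw [hG]
    simp only
    unfold ndP
    rw [← Finset.prod_pow, Finset.prod_congr rfl (fun y hy => (Finset.mem_filter.1 hy).2),
      Finset.prod_const, hblock x hx, ← pow_mul]
  have hGeq : ∀ x ∈ orb α, ∀ y ∈ orb α, G x = G y ↔ x ^ m = y ^ m := by
    intro x hx y hy
    constructor
    · intro h
      apply hU x hx y hy (m * k) (Nat.mul_pos hm hkpos)
      rw [← hGm x hx, ← hGm y hy, h]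
    · intro h
      rw [hG]
      simp only
      rw [h]
  have hmem : ∀ b ∈ orb (G α), ∃ x ∈ orb α, G x = b := by
    intro b hb
    obtain ⟨g, rfl⟩ := Disc.mem_orb.1 hb
    exact ⟨g α, Disc.map_mem_orb hself g, (hGg g α).symm⟩
  have hmap : ∀ x ∈ orb α, G x ∈ orb (G α) := by
    intro x hx
    obtain ⟨g, rfl⟩ := Disc.mem_orb.1 hx
    exact Disc.mem_orb.2 ⟨g, hGg g α⟩
  have hfib : ∀ b ∈ orb (G α), ((orb α).filter (fun x => G x = b)).card = k := by
    intro b hb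
    obtain ⟨x, hx, rfl⟩ := hmem b hb
    rw [← hblock x hx]
    congr 1
    refine Finset.filter_congr fun y hy => ?_
    exact hGeq y hy x hx
  have hnorm : ∀ x ∈ orb α, ∀ y ∈ orb α, G x = G y → ‖σ x‖ = ‖σ y‖ := by
    intro x hx y hy h
    have h1 := (hGeq x hx y hy).1 h
    have h2 : ‖σ x‖ ^ m = ‖σ y‖ ^ m := by
      rw [← norm_pow, ← norm_pow, ← map_pow, ← map_pow, h1]
    exact (pow_left_inj₀ (norm_nonneg _) (norm_nonneg _) hm.ne').1 h2
  have hsum : ∑ x ∈ orb (G α), Real.posLog ‖σ x‖ = ∑ x ∈ orb α, Real.posLog ‖σ x‖ := by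
    rw [← Finset.sum_fiberwise_of_maps_to (g := G) (t := orb (G α)) hmap
      (fun x => Real.posLog ‖σ x‖)]
    refine Finset.sum_congr rfl fun b hb => ?_
    obtain ⟨x, hx, rfl⟩ := hmem b hb
    have h1 : ∑ y ∈ (orb α).filter (fun y => G y = G x), Real.posLog ‖σ y‖ =
        ∑ y ∈ (orb α).filter (fun y => G y = G x), Real.posLog ‖σ x‖ := by
      refine Finset.sum_congr rfl fun y hy => ?_
      rw [hnorm y (Finset.mem_filter.1 hy).1 x hx (Finset.mem_filter.1 hy).2]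
    rw [h1, Finset.sum_const, hfib _ hb, nsmul_eq_mul]
    have h2 : ‖σ (G x)‖ = ‖σ x‖ ^ k := by
      have h3 : ‖σ (G x)‖ ^ m = (‖σ x‖ ^ k) ^ m := by
        rw [← norm_pow, ← map_pow, hGm x hx, map_pow, norm_pow, ← pow_mul, mul_comm]
      exact (pow_left_inj₀ (norm_nonneg _) (by positivity) hm.ne').1 h3
    rw [h2, Real.posLog_pow]
  refine ⟨k, G, hkpos, ?_, fun g x _ => hGg g x, hfib, ?_, hnorm, hsum, ?_, ?_⟩
  · rw [hG]
    simp only
    unfold ndP
    refine IsIntegral.prod _ fun x hx => ?_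
    exact Disc.orb_integral hα (Finset.mem_filter.1 hx).1
  · rw [Finset.card_eq_sum_card_fiberwise hmap, Finset.sum_congr rfl hfib, Finset.sum_const,
      smul_eq_mul, mul_comm]
  · intro n hn x hx y hy hxy
    obtain ⟨u, hu, rfl⟩ := hmem x hx
    obtain ⟨v, hv, rfl⟩ := hmem y hy
    rw [hGeq u hu v hv]
    apply hU u hu v hv (m * k * n) (by positivity)
    rw [pow_mul, pow_mul v, ← hGm u hu, ← hGm v hv, ← pow_mul, ← pow_mul, mul_comm m n, pow_mul,
      pow_mul, hxy]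
  · intro p q _ _ hpq x hx y hy hxy
    exact hpq (nd_exp σ (G α) (by rw [hsum]; exact hS) p q x y hx hy hxy)

end H23.LB
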