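import Pool.Agent.H82.LB.Defs
import Pool.Agent.H91.LK.B3

/-!
# LB, block E1: from the polynomial to the number field
-/

set_option autoImplicit false

namespace H23.LB

open H25.Arith Polynomial H91.LK

section Orbit

variable {K : Type} [Field K] [NumberField K] [IsGalois ℚ K]

theorem tf_split (σ : K →+* ℂ) (x : K) (hx : IsIntegral ℤ x) :
    (minpoly ℤ x).map (Int.castRingHom ℂ) = ∏ y ∈ orb x, (X - C (σ y)) := by
  classical
  have h2 := links_prod x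
  rw [minpoly.isIntegrallyClosed_eq_field_fractions' ℚ hx] at h2
  have h3 := congrArg (Polynomial.map σ) h2
  rw [Polynomial.map_map, Polynomial.map_map, Polynomial.map_prod] at h3
  rw [show Int.castRingHom ℂ = σ.comp ((algebraMap ℚ K).comp (algebraMap ℤ ℚ)) from
    RingHom.ext_int _ _, ← RingHom.comp_assoc] at *
  rw [h3]
  refine Finset.prod_congr rfl fun y _ => ?_
  simp

theorem tf_eval (σ : K →+* ℂ) (x : K) (hx : IsIntegral ℤ x) (w : ℂ) :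
    ‖((minpoly ℤ x).map (Int.castRingHom ℂ)).eval w‖ = ∏ y ∈ orb x, ‖w - σ y‖ := by
  rw [tf_split σ x hx, eval_prod, norm_prod]
  refine Finset.prod_congr rfl fun y _ => ?_
  rw [eval_sub, eval_X, eval_C]

theorem tf_norm (σ : K →+* ℂ) (x : K) (hx : IsIntegral ℤ x) (hx0 : x ≠ 0) :
    1 ≤ ∏ y ∈ orb x, ‖σ y‖ := by
  have h1 := tf_eval σ x hx 0
  have h2 : ((minpoly ℤ x).map (Int.castRingHom ℂ)).eval 0 = (((minpoly ℤ x).coeff 0 : ℤ) : ℂ) := by
    rw [← coeff_zero_eq_eval_zero, coeff_map]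
    simp
  have h3 : (minpoly ℤ x).coeff 0 ≠ 0 := by
    intro h
    have h5 : (minpoly ℚ x).coeff 0 ≠ 0 :=
      minpoly.coeff_zero_ne_zero (Algebra.IsIntegral.isIntegral x) hx0
    apply h5
    rw [minpoly.isIntegrallyClosed_eq_field_fractions' ℚ hx, coeff_map, h, map_zero]
  have h4 : (1 : ℝ) ≤ ‖(((minpoly ℤ x).coeff 0 : ℤ) : ℂ)‖ := by
    rw [Complex.norm_intCast]
    exact_mod_cast Int.one_le_abs h3
  rw [← h2, h1] at h4
  refine h4.trans_eq (Finset.prod_congr rfl fun y _ => ?_)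
  rw [zero_sub, norm_neg]

end Orbit

theorem tf_rf1 (a : ℂ) (ha : a ≠ 0) :
    1 - ‖H82.LB.rf a‖ ≤ 2 * Real.posLog ‖a‖ - Real.log ‖a‖ := by
  have hp : 0 < ‖a‖ := norm_pos_iff.2 ha
  unfold H82.LB.rf
  split_ifs with h
  · have h0 : Real.posLog ‖a‖ = 0 := (Real.posLog_eq_zero_iff _).2 (by
      rw [abs_of_nonneg hp.le]; exact h)
    have h1 := Real.log_le_sub_one_of_pos hp
    rw [h0]
    linarith
  · push Not at h
    have h0 : Real.posLog ‖a‖ = Real.log ‖a‖ :=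
      Real.posLog_eq_log (by rw [abs_of_nonneg hp.le]; exact h.le)
    have h1 := Real.one_sub_inv_le_log_of_pos hp
    rw [h0, norm_inv, RCLike.norm_conj]
    linarith

theorem tf_rf2 (w a : ℂ) (hw : ‖w‖ = 1) :
    ‖1 - w * starRingEnd ℂ (H82.LB.rf a)‖ ≤ ‖w - a‖ := by
  unfold H82.LB.rf
  split_ifs with h
  · have h1 : ‖1 - w * starRingEnd ℂ a‖ = ‖w - a‖ := by
      calc ‖1 - w * starRingEnd ℂ a‖ = ‖starRingEnd ℂ (1 - w * starRingEnd ℂ a)‖ :=
            (RCLike.norm_conj _).symm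
        _ = ‖1 - starRingEnd ℂ w * a‖ := by
            rw [map_sub, map_one, map_mul, Complex.conj_conj]
        _ = ‖w‖ * ‖1 - starRingEnd ℂ w * a‖ := by rw [hw, one_mul]
        _ = ‖w * (1 - starRingEnd ℂ w * a)‖ := (norm_mul _ _).symm
        _ = ‖w - a‖ := by
            congr 1
            have h2 : w * starRingEnd ℂ w = 1 := by
              rw [Complex.mul_conj, Complex.normSq_eq_norm_sq, hw]
              simp
            rw [mul_sub, mul_one, ← mul_assoc, h2, one_mul]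
    exact h1.le
  · push Not at h
    have ha : a ≠ 0 := by
      rintro rfl
      rw [norm_zero] at h
      linarith
    rw [map_inv₀, Complex.conj_conj]
    have h1 : 1 - w * a⁻¹ = (a - w) * a⁻¹ := by
      rw [sub_mul, mul_inv_cancel₀ ha]
    rw [h1, norm_mul, norm_inv, norm_sub_rev]
    calc ‖w - a‖ * ‖a‖⁻¹ ≤ ‖w - a‖ * 1 :=
          mul_le_mul_of_nonneg_left (inv_le_one_of_one_le₀ h.le) (norm_nonneg _)
      _ = ‖w - a‖ := mul_one _

/-- block E1, full form: `f` is associated to the minimal polynomial of `α` -/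
theorem to_field_full (f : ℤ[X]) (hf : Irreducible f) (h0 : 0 < lm f) (h2 : lm f < Real.log 2)
    (B : ℝ) (hB : ∀ z : ℂ, ‖z‖ = 1 → ‖(f.map (Int.castRingHom ℂ)).eval z‖ ≤ B) :
    ∃ (K : Type) (_ : Field K) (_ : NumberField K) (_ : IsGalois ℚ K) (σ : K →+* ℂ) (α : K),
      IsIntegral ℤ α ∧ Associated (minpoly ℤ α) f ∧ 1 ≤ (orb α).card ∧ (orb α).card = f.natDegree ∧
      ∑ x ∈ orb α, Real.posLog ‖σ x‖ = lm f ∧
      ∑ x ∈ orb α, (1 - ‖H82.LB.rf (σ x)‖) ≤ 2 * lm f ∧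
      (∀ m : ℕ, (∀ u v : ℂ, (f.map (Int.castRingHom ℂ)).eval u = 0 →
        (f.map (Int.castRingHom ℂ)).eval v = 0 → u ≠ v → u ^ m ≠ v ^ m) →
        ∀ x ∈ orb α, ∀ y ∈ orb α, x ^ m = y ^ m → x = y) ∧
      (∀ p q : ℕ, 0 < p → 0 < q → p ≠ q → ∀ x ∈ orb α, ∀ y ∈ orb α, x ^ p ≠ y ^ q) ∧
      ∀ w : ℂ, ‖w‖ = 1 → ∏ x ∈ orb α, ‖1 - w * starRingEnd ℂ (H82.LB.rf (σ x))‖ ≤ B := by
  classical
  have hne : f ≠ 0 := hf.ne_zero
  have hlc := nd_lc hne h2
  have hdeg : f.natDegree ≠ 0 := by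
    intro hz
    apply hf.not_isUnit
    rw [eq_C_of_natDegree_eq_zero hz] at hlc ⊢
    rw [leadingCoeff_C] at hlc
    rw [isUnit_C]
    exact Int.isUnit_iff_abs_eq.2 hlc
  obtain ⟨K, i1, i2, i3, α, hα⟩ := nd_root f hdeg
  have hu : IsUnit f.leadingCoeff := Int.isUnit_iff_abs_eq.2 hlc
  have hsq : f.leadingCoeff * f.leadingCoeff = 1 := by
    rcases Int.isUnit_iff.1 hu with h | h <;> rw [h] <;> norm_num
  set g : ℤ[X] := C f.leadingCoeff * f with hgdef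
  have hgm : g.Monic := by
    unfold Monic
    rw [hgdef, leadingCoeff_mul, leadingCoeff_C, hsq]
  have hassoc : Associated g f := by
    rw [hgdef]
    refine ⟨(isUnit_C.2 hu).unit, ?_⟩
    rw [IsUnit.unit_spec, mul_comm, ← mul_assoc, ← C_mul, hsq, C_1, one_mul]
  have hgirr : Irreducible g := hassoc.symm.irreducible hf
  have hgα : aeval α g = 0 := by
    rw [hgdef, map_mul, hα, mul_zero]
  have hint : IsIntegral ℤ α := ⟨g, hgm, by rw [← aeval_def]; exact hgα⟩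
  have hmp : minpoly ℤ α = g := by
    have hdvd : minpoly ℤ α ∣ g := minpoly.isIntegrallyClosed_dvd hint hgα
    have has : Associated (minpoly ℤ α) g :=
      ((minpoly.irreducible hint).associated_of_dvd hgirr hdvd)
    exact eq_of_monic_of_associated (minpoly.monic hint) hgm has
  obtain ⟨σ⟩ : Nonempty (K →+* ℂ) := inferInstance
  have hglm : lm g = lm f := by
    rw [hgdef, nd_lm_mul (C_ne_zero.2 hu.ne_zero) hne]
    have : lm (C f.leadingCoeff) = 0 := by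
      rw [nd_lm_eq, Polynomial.map_C, mahlerMeasure_const]
      have h5 : ‖(Int.castRingHom ℂ) f.leadingCoeff‖ = |(f.leadingCoeff : ℝ)| := by simp
      rw [h5]
      have h6 : |(f.leadingCoeff : ℝ)| = 1 := by exact_mod_cast hlc
      rw [h6, Real.log_one]
    rw [this, zero_add]
  have hsum : ∑ x ∈ orb α, Real.posLog ‖σ x‖ = lm f := by
    rw [← nd_lm_minpoly σ α hint, hmp, hglm]
  have hα0 : α ≠ 0 := by
    rintro rfl
    have h3 : ∑ x ∈ orb (0 : K), Real.posLog ‖σ x‖ = 0 := by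
      refine Finset.sum_eq_zero fun x hx => ?_
      obtain ⟨g, rfl⟩ := Disc.mem_orb.1 hx
      simp
    rw [h3] at hsum
    linarith
  have heval : ∀ w : ℂ, ‖(f.map (Int.castRingHom ℂ)).eval w‖ = ∏ y ∈ orb α, ‖w - σ y‖ := by
    intro w
    rw [← tf_eval σ α hint w, hmp, hgdef, Polynomial.map_mul, eval_mul, norm_mul,
      Polynomial.map_C, eval_C]
    have h5 : ‖(Int.castRingHom ℂ) f.leadingCoeff‖ = |(f.leadingCoeff : ℝ)| := by simp
    have h6 : |(f.leadingCoeff : ℝ)| = 1 := by exact_mod_cast hlc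
    rw [h5, h6, one_mul]
  have hroot : ∀ x ∈ orb α, (f.map (Int.castRingHom ℂ)).eval (σ x) = 0 := by
    intro x hx
    rw [← norm_eq_zero, heval]
    exact Finset.prod_eq_zero hx (by rw [sub_self, norm_zero])
  have hx0 : ∀ x ∈ orb α, σ x ≠ 0 := by
    intro x hx
    obtain ⟨g, rfl⟩ := Disc.mem_orb.1 hx
    exact (_root_.map_ne_zero σ).2 ((_root_.map_ne_zero g).2 hα0)
  have hcard : (orb α).card = f.natDegree := by
    rw [← nd_card α hint, hmp, hgdef, natDegree_mul (C_ne_zero.2 hu.ne_zero) hne, natDegree_C,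
      zero_add]
  refine ⟨K, i1, i2, i3, σ, α, hint, by rw [hmp]; exact hassoc, one_le_orb α, hcard, hsum,
    ?_, ?_, ?_, ?_⟩
  · have h3 : ∑ x ∈ orb α, (1 - ‖H82.LB.rf (σ x)‖) ≤
        ∑ x ∈ orb α, (2 * Real.posLog ‖σ x‖ - Real.log ‖σ x‖) :=
      Finset.sum_le_sum fun x hx => tf_rf1 _ (hx0 x hx)
    have h4 : 0 ≤ ∑ x ∈ orb α, Real.log ‖σ x‖ := by
      rw [← Real.log_prod fun x hx => (norm_pos_iff.2 (hx0 x hx)).ne']
      exact Real.log_nonneg (tf_norm σ α hint hα0)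
    have h5 : ∑ x ∈ orb α, (2 * Real.posLog ‖σ x‖ - Real.log ‖σ x‖) =
        2 * lm f - ∑ x ∈ orb α, Real.log ‖σ x‖ := by
      rw [Finset.sum_sub_distrib, ← Finset.mul_sum, hsum]
    rw [h5] at h3
    linarith
  · intro m hnd x hx y hy hxy
    by_contra hxne
    refine hnd (σ x) (σ y) (hroot x hx) (hroot y hy) (fun h => hxne (σ.injective h)) ?_
    rw [← map_pow, ← map_pow, hxy]
  · intro p q _ _ hpq x hx y hy hxy
    exact hpq (nd_exp σ α (by rw [hsum]; exact h0) p q x y hx hy hxy)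
  · intro w hw
    calc ∏ x ∈ orb α, ‖1 - w * starRingEnd ℂ (H82.LB.rf (σ x))‖
        ≤ ∏ x ∈ orb α, ‖w - σ x‖ :=
          Finset.prod_le_prod (fun _ _ => norm_nonneg _) fun x _ => tf_rf2 w (σ x) hw
      _ = ‖(f.map (Int.castRingHom ℂ)).eval w‖ := (heval w).symm
      _ ≤ B := hB w hw

/-- block E1 without the hypothesis on quotients of roots: for every exponent `m` separately -/
theorem to_field_gen (f : ℤ[X]) (hf : Irreducible f) (h0 : 0 < lm f) (h2 : lm f < Real.log 2)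
    (B : ℝ) (hB : ∀ z : ℂ, ‖z‖ = 1 → ‖(f.map (Int.castRingHom ℂ)).eval z‖ ≤ B) :
    ∃ (K : Type) (_ : Field K) (_ : NumberField K) (_ : IsGalois ℚ K) (σ : K →+* ℂ) (α : K),
      IsIntegral ℤ α ∧ 1 ≤ (orb α).card ∧ (orb α).card = f.natDegree ∧
      ∑ x ∈ orb α, Real.posLog ‖σ x‖ = lm f ∧
      ∑ x ∈ orb α, (1 - ‖H82.LB.rf (σ x)‖) ≤ 2 * lm f ∧
      (∀ m : ℕ, (∀ u v : ℂ, (f.map (Int.castRingHom ℂ)).eval u = 0 →
        (f.map (Int.castRingHom ℂ)).eval v = 0 → u ≠ v → u ^ m ≠ v ^ m) →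
        ∀ x ∈ orb α, ∀ y ∈ orb α, x ^ m = y ^ m → x = y) ∧
      (∀ p q : ℕ, 0 < p → 0 < q → p ≠ q → ∀ x ∈ orb α, ∀ y ∈ orb α, x ^ p ≠ y ^ q) ∧
      ∀ w : ℂ, ‖w‖ = 1 → ∏ x ∈ orb α, ‖1 - w * starRingEnd ℂ (H82.LB.rf (σ x))‖ ≤ B := by
  obtain ⟨K, i1, i2, i3, σ, α, hint, -, h⟩ := to_field_full f hf h0 h2 B hB
  exact ⟨K, i1, i2, i3, σ, α, hint, h⟩

/-- block E1: from the polynomial to the number field -/
theorem to_field (f : ℤ[X]) (hf : Irreducible f) (h0 : 0 < lm f) (h2 : lm f < Real.log 2)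
    (hnd : ∀ x y : ℂ, (f.map (Int.castRingHom ℂ)).eval x = 0 →
      (f.map (Int.castRingHom ℂ)).eval y = 0 → x ≠ y → ∀ n : ℕ, 0 < n → x ^ n ≠ y ^ n)
    (B : ℝ) (hB : ∀ z : ℂ, ‖z‖ = 1 → ‖(f.map (Int.castRingHom ℂ)).eval z‖ ≤ B) :
    ∃ (K : Type) (_ : Field K) (_ : NumberField K) (_ : IsGalois ℚ K) (σ : K →+* ℂ) (α : K),
      IsIntegral ℤ α ∧ 1 ≤ (orb α).card ∧
      ∑ x ∈ orb α, Real.posLog ‖σ x‖ = lm f ∧
      ∑ x ∈ orb α, (1 - ‖H82.LB.rf (σ x)‖) ≤ 2 * lm f ∧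
      (∀ m : ℕ, 0 < m → ∀ x ∈ orb α, ∀ y ∈ orb α, x ^ m = y ^ m → x = y) ∧
      (∀ p q : ℕ, 0 < p → 0 < q → p ≠ q → ∀ x ∈ orb α, ∀ y ∈ orb α, x ^ p ≠ y ^ q) ∧
      ∀ w : ℂ, ‖w‖ = 1 → ∏ x ∈ orb α, ‖1 - w * starRingEnd ℂ (H82.LB.rf (σ x))‖ ≤ B := by
  obtain ⟨K, i1, i2, i3, σ, α, hint, h1, -, hsum, hrf, hinj, hne, hw⟩ := to_field_gen f hf h0 h2 B hB
  exact ⟨K, i1, i2, i3, σ, α, hint, h1, hsum, hrf,
    fun m hm => hinj m fun u v hu hv huv => hnd u v hu hv huv m hm, hne, hw⟩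

end H23.LB
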